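import Pool.Agent.Helper58.QD.Stub

/-!
C2: if all small sets are given by models of `χ`, there are many models
-/

set_option autoImplicit false

namespace Pool.Agent.Helper83.QG

open FirstOrder Pool.Agent.Helper20.Spectra
open Pool.Agent.Helper58.QD

variable {S : Type} {ar : S → ℕ}

/-- the data of a set given by two models -/
abbrev Dat (χ : (RelLang S ar).Sentence) (n : ℕ) : Type :=
  Σ s : S, (Finset (Fin (ar s)) × (Fin (ar s) → Fin n) × (Fin (ar s) → Fin n)) ×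
    ({R : Interp S ar (Fin n) // IsMod χ R} × {R : Interp S ar (Fin n) // IsMod χ R}) × Fin n

open Classical in
/-- the set -/
noncomputable def datSet {χ : (RelLang S ar).Sentence} {n : ℕ} (d : Dat χ n) : Finset (Fin n) :=
  Finset.univ.filter fun x => XJ d.2.1.1 (d.2.2.1.1.1 d.1) (d.2.2.1.2.1 d.1) d.2.1.2.1 d.2.1.2.2 d.2.2.2 x

theorem dec_data {χ : (RelLang S ar).Sentence} {n : ℕ} {Z : Finset (Fin n)} (h : Dec χ Z) :
    ∃ d : Dat χ n × Dat χ n, datSet d.1 \ datSet d.2 = Z := by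
  classical
  obtain ⟨X, Y, ⟨s, J, R1, R2, a1, a2, p, h1, h2, h3⟩, ⟨s', J', R1', R2', a1', a2', p', h1', h2', h3'⟩, h4⟩ := h
  refine ⟨(⟨s, ⟨J, a1, a2⟩, ⟨⟨R1, h1⟩, ⟨R2, h2⟩⟩, p⟩, ⟨s', ⟨J', a1', a2'⟩, ⟨⟨R1', h1'⟩, ⟨R2', h2'⟩⟩, p'⟩), ?_⟩
  have e1 : datSet (χ := χ) ⟨s, ⟨J, a1, a2⟩, ⟨⟨R1, h1⟩, ⟨R2, h2⟩⟩, p⟩ = X := by
    ext x
    rw [datSet, Finset.mem_filter, h3 x]
    exact ⟨fun h => h.2, fun h => ⟨Finset.mem_univ x, h⟩⟩
  have e2 : datSet (χ := χ) ⟨s', ⟨J', a1', a2'⟩, ⟨⟨R1', h1'⟩, ⟨R2', h2'⟩⟩, p'⟩ = Y := by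
    ext x
    rw [datSet, Finset.mem_filter, h3' x]
    exact ⟨fun h => h.2, fun h => ⟨Finset.mem_univ x, h⟩⟩
  show datSet (χ := χ) ⟨s, ⟨J, a1, a2⟩, ⟨⟨R1, h1⟩, ⟨R2, h2⟩⟩, p⟩ \
    datSet (χ := χ) ⟨s', ⟨J', a1', a2'⟩, ⟨⟨R1', h1'⟩, ⟨R2', h2'⟩⟩, p'⟩ = Z
  rw [e1, e2]
  ext x
  rw [Finset.mem_sdiff, h4]

theorem finite_models [Finite S] (χ : (RelLang S ar).Sentence) (n : ℕ) :
    Finite {R : Interp S ar (Fin n) // IsMod χ R} := by
  haveI : Finite (Interp S ar (Fin n)) := Pi.finite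
  exact Subtype.finite

theorem card_dat [Fintype S] (χ : (RelLang S ar).Sentence) {n : ℕ} (K : ℕ) (hK : ∀ s, ar s ≤ K) (hn : 1 ≤ n) :
    Nat.card (Dat χ n) ≤ Fintype.card S * 2 ^ K * n ^ (2 * K + 1) * count χ n ^ 2 := by
  classical
  haveI := finite_models χ n
  haveI := Fintype.ofFinite {R : Interp S ar (Fin n) // IsMod χ R}
  have e : count χ n = Fintype.card {R : Interp S ar (Fin n) // IsMod χ R} := Nat.card_eq_fintype_card
  rw [Nat.card_sigma]
  calc ∑ s : S, Nat.card ((Finset (Fin (ar s)) × (Fin (ar s) → Fin n) × (Fin (ar s) → Fin n)) ×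
        ({R : Interp S ar (Fin n) // IsMod χ R} × {R : Interp S ar (Fin n) // IsMod χ R}) × Fin n)
      ≤ ∑ _s : S, 2 ^ K * n ^ (2 * K + 1) * count χ n ^ 2 := by
        refine Finset.sum_le_sum fun s _ => ?_
        rw [Nat.card_eq_fintype_card]
        simp only [Fintype.card_prod, Fintype.card_finset, Fintype.card_fin, Fintype.card_fun]
        rw [← e]
        have h1 : 2 ^ ar s ≤ 2 ^ K := Nat.pow_le_pow_right (by norm_num) (hK s)
        have h2 : n ^ ar s ≤ n ^ K := Nat.pow_le_pow_right hn (hK s)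
        calc 2 ^ ar s * (n ^ ar s * n ^ ar s) * (count χ n * count χ n * n)
            ≤ 2 ^ K * (n ^ K * n ^ K) * (count χ n * count χ n * n) := by gcongr
          _ = _ := by ring
    _ = _ := by
        rw [Finset.sum_const, Finset.card_univ, smul_eq_mul]
        ring

/-- many sets -/
theorem many_sets {n b : ℕ} (h : b ^ 5 ≤ n) (hb : 2 ≤ b) : b ^ (3 * b) ≤ n.choose b := by
  have h1 : (n + 1 - b) ^ b ≤ b.factorial * n.choose b := by
    have := Nat.pow_sub_le_descFactorial n b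
    rw [Nat.descFactorial_eq_factorial_mul_choose] at this
    exact this
  have h2 : b ^ 4 ≤ n + 1 - b := by
    have h3 : b ^ 4 + b ≤ b ^ 5 := by
      have : b ≤ b ^ 4 := by
        calc b = b ^ 1 := (pow_one b).symm
          _ ≤ b ^ 4 := Nat.pow_le_pow_right (by omega) (by norm_num)
      calc b ^ 4 + b ≤ b ^ 4 + b ^ 4 := by omega
        _ = 2 * b ^ 4 := by ring
        _ ≤ b * b ^ 4 := Nat.mul_le_mul_right _ hb
        _ = b ^ 5 := by ring
    omega
  have h4 : (b ^ 4) ^ b ≤ b ^ b * n.choose b :=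
    (Nat.pow_le_pow_left h2 b).trans (h1.trans (Nat.mul_le_mul_right _ (Nat.factorial_le_pow b)))
  have h5 : (b ^ 4) ^ b = b ^ b * b ^ (3 * b) := by
    rw [← pow_mul, ← pow_add]
    congr 1
    ring
  rw [h5] at h4
  exact Nat.le_of_mul_le_mul_left h4 (pow_pos (by omega) b)

theorem sr_le {n : ℕ} (hn : 1 ≤ n) : sr n ^ 5 ≤ n := by
  have := Nat.findGreatest_spec (P := fun b => b ^ 5 ≤ n) (m := 0) (n := n) (Nat.zero_le n) (by simp)
  exact this

theorem lt_sr {n : ℕ} (hn : 1 ≤ n) : n < (sr n + 1) ^ 5 := by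
  by_contra h
  push Not at h
  have h1 : sr n + 1 ≤ n := by
    calc sr n + 1 = (sr n + 1) ^ 1 := (pow_one _).symm
      _ ≤ (sr n + 1) ^ 5 := Nat.pow_le_pow_right (by omega) (by norm_num)
      _ ≤ n := h
  have h2 := Nat.le_findGreatest (P := fun b => b ^ 5 ≤ n) h1 h
  have h3 : sr n = Nat.findGreatest (fun b => b ^ 5 ≤ n) n := rfl
  omega

theorem stmtMany : StmtMany := by
  intro S _ ar χ hdec hinf N
  classical
  haveI := Fintype.ofFinite S
  obtain ⟨K, hK⟩ : ∃ K, ∀ s, ar s ≤ K := ⟨∑ s, ar s, fun s => Finset.single_le_sum (fun _ _ => Nat.zero_le _)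
    (Finset.mem_univ s)⟩
  set D := (Fintype.card S * 2 ^ K) ^ 2 with hD
  -- a large `n` in `TT`
  obtain ⟨n, hnT, hn⟩ := hinf.exists_gt (N + (D + 12 * K + 40) ^ 5)
  have hn1 : 1 ≤ n := hnT.1
  set b := sr n with hbdef
  have hb5 : b ^ 5 ≤ n := sr_le hn1
  have hb6 : n < (b + 1) ^ 5 := lt_sr hn1
  have hbig : D + 12 * K + 40 ≤ b := by
    by_contra h
    push Not at h
    have := Nat.pow_le_pow_left (show b + 1 ≤ D + 12 * K + 40 by omega) 5
    omega
  have hb7 : n ≤ b ^ 6 := by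
    have h1 : (b + 1) ^ 5 ≤ b ^ 6 := by
      have h2 : (b + 1) ^ 5 ≤ 32 * b ^ 5 := by
        calc (b + 1) ^ 5 ≤ (2 * b) ^ 5 := Nat.pow_le_pow_left (by omega) 5
          _ = 32 * b ^ 5 := by ring
      calc (b + 1) ^ 5 ≤ 32 * b ^ 5 := h2
        _ ≤ b * b ^ 5 := Nat.mul_le_mul_right _ (by omega)
        _ = b ^ 6 := by ring
    omega
  refine ⟨n, b, by omega, hb7, ?_⟩
  haveI := finite_models χ n
  haveI : Finite (Dat χ n) := by
    unfold Dat
    infer_instance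
  -- the sets with `b` elements
  have hcard : n.choose b ≤ Nat.card (Dat χ n) ^ 2 := by
    have h1 : (Finset.powersetCard b (Finset.univ : Finset (Fin n))).card = n.choose b := by
      rw [Finset.card_powersetCard, Finset.card_univ, Fintype.card_fin]
    have hd : ∀ X : {X // X ∈ Finset.powersetCard b (Finset.univ : Finset (Fin n))},
        ∃ d : Dat χ n × Dat χ n, datSet d.1 \ datSet d.2 = X.1 := fun X =>
      dec_data (hdec n hnT X.1 (le_of_eq (Finset.mem_powersetCard.1 X.2).2))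
    choose G hG using hd
    have hGi : Function.Injective G := by
      intro X Y h
      apply Subtype.ext
      rw [← hG X, ← hG Y, h]
    have h2 := Nat.card_le_card_of_injective G hGi
    rw [Nat.card_prod, Nat.card_eq_fintype_card, Fintype.card_coe, h1] at h2
    rw [sq]
    exact h2
  have h1 := many_sets hb5 (by omega)
  have h2 := card_dat χ K hK hn1
  set c := count χ n with hc
  have h3 : b ^ (3 * b) ≤ D * n ^ (4 * K + 2) * c ^ 4 := by
    calc b ^ (3 * b) ≤ Nat.card (Dat χ n) ^ 2 := h1.trans hcard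
      _ ≤ (Fintype.card S * 2 ^ K * n ^ (2 * K + 1) * c ^ 2) ^ 2 := Nat.pow_le_pow_left h2 2
      _ = D * n ^ (4 * K + 2) * c ^ 4 := by
        rw [hD]
        ring
  have h4 : n ^ (4 * K + 2) ≤ b ^ (24 * K + 12) := by
    calc n ^ (4 * K + 2) ≤ (b ^ 6) ^ (4 * K + 2) := Nat.pow_le_pow_left hb7 _
      _ = b ^ (24 * K + 12) := by
        rw [← pow_mul]
        congr 1
        ring
  have h5 : 2 ^ (4 * b) * b ^ (2 * b) ≤ b ^ (3 * b) := by
    have : 2 ^ (4 * b) ≤ b ^ b := by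
      rw [pow_mul]
      exact Nat.pow_le_pow_left (by omega) b
    calc 2 ^ (4 * b) * b ^ (2 * b) ≤ b ^ b * b ^ (2 * b) := Nat.mul_le_mul_right _ this
      _ = b ^ (3 * b) := by
        rw [← pow_add]
        congr 1
        ring
  have h6 : D * b ^ (24 * K + 12) ≤ b ^ (2 * b) := by
    calc D * b ^ (24 * K + 12) ≤ b * b ^ (24 * K + 12) := Nat.mul_le_mul_right _ (by omega)
      _ = b ^ (24 * K + 13) := by ring
      _ ≤ b ^ (2 * b) := Nat.pow_le_pow_right (by omega) (by omega)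
  have h7 : 2 ^ (4 * b) * b ^ (2 * b) ≤ b ^ (2 * b) * c ^ 4 := by
    calc 2 ^ (4 * b) * b ^ (2 * b) ≤ D * n ^ (4 * K + 2) * c ^ 4 := h5.trans h3
      _ ≤ D * b ^ (24 * K + 12) * c ^ 4 := by gcongr
      _ ≤ b ^ (2 * b) * c ^ 4 := by gcongr
  have h8 : 2 ^ (4 * b) ≤ c ^ 4 := by
    rw [mul_comm] at h7
    exact Nat.le_of_mul_le_mul_left h7 (pow_pos (by omega) _)
  have h9 : (2 ^ b) ^ 4 ≤ c ^ 4 := by
    rw [← pow_mul, mul_comm b 4]
    exact h8
  exact (Nat.pow_le_pow_iff_left (by norm_num)).1 h9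

end Pool.Agent.Helper83.QG
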