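import Pool.Agent.Helper38.QD.Inv
import Pool.Agent.Helper31.QD.Shrink

/-!
C4: with bounded supports the number of models is eventually a polynomial
-/

set_option autoImplicit false

namespace Pool.Agent.Helper83.QG

open FirstOrder FirstOrder.Language Pool.Agent.Helper20.Spectra
open Pool.Agent.Helper58.QD
open Pool.Agent.Helper31.QD (Au resI ef sup_erase au_swap qd)
open Pool.Agent.Helper38.QD (isMod_equiv perm_of_card card_iniS)

/-- the statement -/
def StmtEvPoly : Prop := ∀ (S : Type) [Finite S] (ar : S → ℕ) (χ : (RelLang S ar).Sentence),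
  Bdd χ → ∃ (d n0 : ℕ) (a : ℕ → ℕ), ∀ n, n0 ≤ n →
    count χ n = ∑ j ∈ Finset.range (d + 1), a j * n.choose j

variable {S : Type} {ar : S → ℕ}

/-- `C` is a support from which no point can be left out -/
def LS {M : Type} [DecidableEq M] (R : Interp S ar M) (C : Finset M) : Prop :=
  SupI R C ∧ ∀ x ∈ C, ¬ SupI R (C.erase x)

theorem LS.unique {n b : ℕ} (hn : 2 * b < n) {R : Interp S ar (Fin n)} {C C' : Finset (Fin n)} (h : LS R C)
    (h' : LS R C') (hC : C.card ≤ b) (hC' : C'.card ≤ b) : C = C' := by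
  classical
  have key : ∀ {A A' : Finset (Fin n)}, LS R A → LS R A' → A.card ≤ b → A'.card ≤ b → A ⊆ A' := by
    intro A A' hA hA' hc hc' x hx
    by_contra hx'
    obtain ⟨y, -, hy⟩ : ∃ y ∈ (Finset.univ : Finset (Fin n)), y ∉ A ∪ A' := by
      apply Finset.exists_mem_notMem_of_card_lt_card
      have := Finset.card_union_le A A'
      rw [Finset.card_univ, Fintype.card_fin]
      omega
    rw [Finset.mem_union, not_or] at hy
    have hau : Au R (Equiv.swap x y) := by
      intro s t
      refine hA'.1 s _ (fun c hc => ?_) t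
      apply Equiv.swap_apply_of_ne_of_ne
      · rintro rfl
        exact hx' hc
      · rintro rfl
        exact hy.2 hc
    exact hA.2 x hx (sup_erase hA.1 hx hy.1 hau)
  exact Finset.Subset.antisymm (key h h' hC hC') (key h' h hC' hC)

theorem LS.exists {n b : ℕ} {R : Interp S ar (Fin n)} (h : ∃ C : Finset (Fin n), C.card ≤ b ∧ SupI R C) :
    ∃ C : Finset (Fin n), C.card ≤ b ∧ LS R C := by
  classical
  have hex : ∃ m, ∃ C : Finset (Fin n), C.card = m ∧ SupI R C := by
    obtain ⟨C, _, hC⟩ := h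
    exact ⟨_, C, rfl, hC⟩
  obtain ⟨C, hCc, hC⟩ := Nat.find_spec hex
  refine ⟨C, ?_, hC, fun x hx hx' => ?_⟩
  · obtain ⟨C', h1, h2⟩ := h
    have := Nat.find_min' hex ⟨C', rfl, h2⟩
    omega
  · have := Nat.find_min' hex ⟨_, rfl, hx'⟩
    rw [Finset.card_erase_of_mem hx] at this
    have : 0 < C.card := Finset.card_pos.2 ⟨x, hx⟩
    omega

/-- transport of supports -/
theorem supI_perm {n : ℕ} {R : Interp S ar (Fin n)} {C C' : Finset (Fin n)} (h : SupI R C) (π : Equiv.Perm (Fin n))
    (hC : ∀ x ∈ C, π x ∈ C') : SupI (fun s w => R s (π.symm ∘ w)) C' := by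
  intro s σ hσ t
  have h1 := h s (π.symm * σ * π) (fun x hx => by
    rw [Equiv.Perm.mul_apply, Equiv.Perm.mul_apply, hσ _ (hC x hx)]
    exact π.symm_apply_apply x) (π.symm ∘ t)
  have e : (⇑(π.symm * σ * π) ∘ (π.symm ∘ t)) = π.symm ∘ (σ ∘ t) := by
    funext i
    show π.symm (σ (π (π.symm (t i)))) = π.symm (σ (t i))
    rw [Equiv.apply_symm_apply]
  rw [e] at h1
  exact h1

theorem LS.perm {n : ℕ} {R : Interp S ar (Fin n)} {C C' : Finset (Fin n)} (h : LS R C) (π : Equiv.Perm (Fin n))
    (hC : ∀ x, π x ∈ C' ↔ x ∈ C) : LS (fun s w => R s (π.symm ∘ w)) C' := by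
  classical
  refine ⟨supI_perm h.1 π fun x hx => (hC x).2 hx, fun y hy hy' => ?_⟩
  obtain ⟨x, rfl⟩ := π.surjective y
  refine h.2 x ((hC x).1 hy) ?_
  have h2 := supI_perm (C' := C.erase x) hy' π.symm (fun z hz => by
    rw [Finset.mem_erase] at hz ⊢
    refine ⟨fun h3 => hz.1 ?_, ?_⟩
    · rw [← h3]
      exact (π.apply_symm_apply z).symm
    · rw [← hC]
      have : π (π.symm z) = z := π.apply_symm_apply z
      rw [this]
      exact hz.2)
  have e : (fun (s : S) (w : Fin (ar s) → Fin n) => R s (π.symm ∘ (π.symm.symm ∘ w))) = R := by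
    funext s w
    congr 1
    funext i
    exact π.symm_apply_apply (w i)
  have h3 : SupI (fun (s : S) (w : Fin (ar s) → Fin n) => R s (π.symm ∘ (π.symm.symm ∘ w))) (C.erase x) := h2
  rw [e] at h3
  exact h3

/-! ## Restriction from `n + 1` to `n` points -/

/-- the restriction -/
def rst {n : ℕ} (R : Interp S ar (Fin (n + 1))) : Interp S ar (Fin n) := fun s t => R s (Fin.castSucc ∘ t)

/-- the points `j, ..., n - 1` -/
def midS (n j : ℕ) : Finset (Fin (n + 1)) := Finset.univ.filter fun x => j ≤ (x : ℕ) ∧ (x : ℕ) < n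

theorem mem_iniS {n j : ℕ} {x : Fin n} : x ∈ iniS n j ↔ (x : ℕ) < j := by
  simp [iniS]

theorem mem_midS {n j : ℕ} {x : Fin (n + 1)} : x ∈ midS n j ↔ j ≤ (x : ℕ) ∧ (x : ℕ) < n := by
  simp [midS]

theorem disj {n j : ℕ} : Disjoint (iniS (n + 1) j) (midS n j) := by
  rw [Finset.disjoint_left]
  intro x hx hx'
  rw [mem_iniS] at hx
  rw [mem_midS] at hx'
  omega

theorem mem_union' {n j : ℕ} (hj : j ≤ n) {x : Fin (n + 1)} : x ∈ iniS (n + 1) j ∪ midS n j ↔ (x : ℕ) < n := by
  rw [Finset.mem_union, mem_iniS, mem_midS]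
  omega

theorem card_midS {n j : ℕ} (hj : j ≤ n) : n - j ≤ (midS n j).card := by
  have h1 := Finset.card_union_of_disjoint (disj (n := n) (j := j))
  rw [card_iniS (by omega)] at h1
  have h2 : (iniS (n + 1) j ∪ midS n j).card = n := by
    have : iniS (n + 1) j ∪ midS n j = iniS (n + 1) n := by
      ext x
      rw [mem_union' hj, mem_iniS]
    rw [this, card_iniS (by omega)]
  omega

/-- the points `0, ..., n - 1` of `Fin (n + 1)` -/
def eqW {n j : ℕ} (hj : j ≤ n) : (iniS (n + 1) j ∪ midS n j : Finset (Fin (n + 1))) ≃ Fin n where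
  toFun x := ⟨x.1, (mem_union' hj).1 x.2⟩
  invFun i := ⟨i.castSucc, (mem_union' hj).2 i.2⟩
  left_inv x := by
    apply Subtype.ext
    apply Fin.ext
    rfl
  right_inv i := by
    apply Fin.ext
    rfl

theorem rst_mod {χ : (RelLang S ar).Sentence} {n j : ℕ} (hj : j + qd χ ≤ n) {R : Interp S ar (Fin (n + 1))}
    (hR : IsMod χ R) (hs : SupI R (iniS (n + 1) j)) : IsMod χ (rst R) := by
  have h1 := ef hs (disj (n := n) (j := j)) (n := 0) χ
    (by have := card_midS (n := n) (j := j) (by omega); omega) default default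
  have h4 : IsMod χ (resI R (iniS (n + 1) j ∪ midS n j)) := by
    refine h1.1 ?_
    exact (iff_of_eq (congrArg₂ (fun v x => @BoundedFormula.Realize _ (Fin (n + 1)) (mkS R) _ _ χ v x)
      (Subsingleton.elim _ _) (Subsingleton.elim _ _))).1 hR
  exact (isMod_equiv χ (eqW (n := n) (j := j) (by omega)) _).1 h4

/-- extension of permutations -/
def extP {n : ℕ} (σ : Equiv.Perm (Fin n)) : Equiv.Perm (Fin (n + 1)) :=
  (finSuccEquivLast.trans (Equiv.optionCongr σ)).trans finSuccEquivLast.symm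

theorem extP_castSucc {n : ℕ} (σ : Equiv.Perm (Fin n)) (i : Fin n) : extP σ i.castSucc = (σ i).castSucc := by
  simp [extP]

theorem extP_last {n : ℕ} (σ : Equiv.Perm (Fin n)) : extP σ (Fin.last n) = Fin.last n := by
  simp [extP]

theorem rst_sup {n j : ℕ} {R : Interp S ar (Fin (n + 1))} (hs : SupI R (iniS (n + 1) j)) :
    SupI (rst R) (iniS n j) := by
  intro s σ hσ t
  have h1 := hs s (extP σ) (fun x hx => by
    rw [mem_iniS] at hx
    by_cases hxn : (x : ℕ) < n
    · have e : x = (⟨x, hxn⟩ : Fin n).castSucc := Fin.ext rfl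
      rw [e, extP_castSucc, hσ _ (mem_iniS.2 hx)]
    · have e : x = Fin.last n := Fin.ext (by have := x.2; simp only [Fin.val_last]; omega)
      rw [e, extP_last]) (Fin.castSucc ∘ t)
  have e : (extP σ ∘ (Fin.castSucc ∘ t)) = Fin.castSucc ∘ (σ ∘ t) := funext fun i => extP_castSucc σ (t i)
  rw [e] at h1
  exact h1

theorem rst_LS {n j K : ℕ} (hK : ∀ s, ar s ≤ K) (hj : j + K + 1 ≤ n) {R : Interp S ar (Fin (n + 1))}
    (h : LS R (iniS (n + 1) j)) : LS (rst R) (iniS n j) := by
  classical
  refine ⟨rst_sup h.1, fun x hx hx' => ?_⟩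
  rw [mem_iniS] at hx
  have hjn : j < n := by omega
  set y : Fin n := ⟨j, hjn⟩ with hy
  have hau : Au (rst R) (Equiv.swap x y) := by
    intro s t
    refine hx' s _ (fun c hc => ?_) t
    rw [Finset.mem_erase, mem_iniS] at hc
    apply Equiv.swap_apply_of_ne_of_ne hc.1
    rintro rfl
    simp [hy] at hc
  have hxC : x.castSucc ∈ iniS (n + 1) j := mem_iniS.2 hx
  have hyB : y.castSucc ∈ midS n j := mem_midS.2 ⟨by simp [hy], by simp [hy, hjn]⟩
  have hyC : y.castSucc ∉ iniS (n + 1) j := by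
    rw [mem_iniS]
    simp [hy]
  have hau' : Au R (Equiv.swap x.castSucc y.castSucc) := by
    refine au_swap h.1 (disj (n := n) (j := j)) hxC hyB (fun s => ?_) (fun s t ht => ?_)
    · have := card_midS (n := n) (j := j) (by omega)
      have := hK s
      omega
    · have ht' : ∀ i, (t i : ℕ) < n := fun i => (mem_union' (by omega)).1 (ht i)
      have e1 : t = Fin.castSucc ∘ (fun i => (⟨t i, ht' i⟩ : Fin n)) := by
        funext i
        exact Fin.ext rfl
      have e2 : (Equiv.swap x.castSucc y.castSucc ∘ t) =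
          Fin.castSucc ∘ (Equiv.swap x y ∘ (fun i => (⟨t i, ht' i⟩ : Fin n))) := by
        conv_lhs => rw [e1]
        funext i
        show Equiv.swap x.castSucc y.castSucc (Fin.castSucc _) = Fin.castSucc (Equiv.swap x y _)
        rw [(Fin.castSucc_injective n).swap_apply]
      rw [e2]
      conv_rhs => rw [e1]
      exact hau s _
  exact h.2 _ hxC (sup_erase h.1 hxC hyC hau')

theorem rst_inj {n j K : ℕ} (hK : ∀ s, ar s ≤ K) (hj : j + K + 1 ≤ n) {R R' : Interp S ar (Fin (n + 1))}
    (h : SupI R (iniS (n + 1) j)) (h' : SupI R' (iniS (n + 1) j)) (he : rst R = rst R') : R = R' := by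
  classical
  funext s t
  obtain ⟨w, hw, hwt⟩ : ∃ w ∈ midS n j, w ∉ Finset.univ.image t := by
    apply Finset.exists_mem_notMem_of_card_lt_card
    have h1 : (Finset.univ.image t).card ≤ ar s := by
      refine Finset.card_image_le.trans ?_
      simp
    have := card_midS (n := n) (j := j) (by omega)
    have := hK s
    omega
  rw [mem_midS] at hw
  set σ := Equiv.swap (Fin.last n) w with hσ
  have hfix : ∀ x ∈ iniS (n + 1) j, σ x = x := by
    intro x hx
    rw [mem_iniS] at hx
    apply Equiv.swap_apply_of_ne_of_ne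
    · rintro rfl
      simp only [Fin.val_last] at hx
      omega
    · rintro rfl
      omega
  have hlt : ∀ i, ((σ (t i) : Fin (n + 1)) : ℕ) < n := by
    intro i
    by_cases h1 : t i = Fin.last n
    · rw [h1, hσ, Equiv.swap_apply_left]
      exact hw.2
    · have h2 : t i ≠ w := fun h2 => hwt (Finset.mem_image.2 ⟨i, Finset.mem_univ _, h2⟩)
      rw [hσ, Equiv.swap_apply_of_ne_of_ne h1 h2]
      have h3 := (t i).2
      have h4 : (t i : ℕ) ≠ n := fun h4 => h1 (Fin.ext (by simp [h4]))
      omega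
  have e1 : (σ ∘ t) = Fin.castSucc ∘ (fun i => (⟨σ (t i), hlt i⟩ : Fin n)) := by
    funext i
    exact Fin.ext rfl
  apply propext
  rw [← h s σ hfix t, ← h' s σ hfix t, e1]
  have := congrFun (congrFun he s) (fun i => (⟨σ (t i), hlt i⟩ : Fin n))
  exact Iff.of_eq this

/-! ## Counting -/

/-- the number of models with the least support `{0, ..., j - 1}` -/
noncomputable def cntA (χ : (RelLang S ar).Sentence) (j n : ℕ) : ℕ :=
  Nat.card {R : Interp S ar (Fin n) // IsMod χ R ∧ LS R (iniS n j)}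

theorem finInterp [Finite S] (n : ℕ) : Finite (Interp S ar (Fin n)) := Pi.finite

theorem cntA_anti [Finite S] (χ : (RelLang S ar).Sentence) {j n K : ℕ} (hK : ∀ s, ar s ≤ K)
    (hj : j + K + qd χ + 1 ≤ n) : cntA χ j (n + 1) ≤ cntA χ j n := by
  haveI := finInterp (S := S) (ar := ar) n
  refine Nat.card_le_card_of_injective
    (fun R : {R : Interp S ar (Fin (n + 1)) // IsMod χ R ∧ LS R (iniS (n + 1) j)} =>
      (⟨rst R.1, rst_mod (by omega) R.2.1 R.2.2.1, rst_LS hK (by omega) R.2.2⟩ :
        {R : Interp S ar (Fin n) // IsMod χ R ∧ LS R (iniS n j)})) ?_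
  intro R R' h
  apply Subtype.ext
  exact rst_inj hK (by omega) R.2.2.1 R'.2.2.1 (congrArg Subtype.val h)

theorem ev_const {f : ℕ → ℕ} {n1 : ℕ} (h : ∀ n, n1 ≤ n → f (n + 1) ≤ f n) : ∃ n0 a, ∀ n, n0 ≤ n → f n = a := by
  classical
  -- the least value
  have hex : ∃ a n, n1 ≤ n ∧ f n = a := ⟨_, n1, le_rfl, rfl⟩
  obtain ⟨n0, h0, h1⟩ := Nat.find_spec hex
  refine ⟨n0, Nat.find hex, fun n hn => ?_⟩
  induction n, hn using Nat.le_induction with
  | base => exact h1
  | succ n hn ih =>
    have h2 := h n (by omega)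
    have h3 := Nat.find_min' hex ⟨n + 1, by omega, rfl⟩
    omega

theorem card_LS [Finite S] (χ : (RelLang S ar).Sentence) {n : ℕ} (C : Finset (Fin n)) :
    Nat.card {R : Interp S ar (Fin n) // IsMod χ R ∧ LS R C} = cntA χ C.card n := by
  have hc : C.card = (iniS n C.card).card := by
    rw [card_iniS]
    have := Finset.card_le_univ C
    rwa [Fintype.card_fin] at this
  obtain ⟨π, hπ⟩ := perm_of_card hc
  have hπ' : ∀ x, π.symm x ∈ C ↔ x ∈ iniS n C.card := by
    intro x
    rw [← hπ, Equiv.apply_symm_apply]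
  refine Nat.card_congr
    { toFun := fun R => ⟨fun s w => R.1 s (π.symm ∘ w), (isMod_equiv χ π R.1).1 R.2.1, R.2.2.perm π hπ⟩
      invFun := fun R => ⟨fun s w => R.1 s (π ∘ w), (isMod_equiv χ π.symm R.1).1 R.2.1, R.2.2.perm π.symm hπ'⟩
      left_inv := ?_
      right_inv := ?_ }
  · intro R
    apply Subtype.ext
    funext s w
    exact congrArg (R.1 s) (funext fun i => π.symm_apply_apply (w i) : π.symm ∘ (π ∘ w) = w)
  · intro R
    apply Subtype.ext
    funext s w
    exact congrArg (R.1 s) (funext fun i => π.apply_symm_apply (w i) : π ∘ (π.symm ∘ w) = w)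

theorem count_eq [Finite S] (χ : (RelLang S ar).Sentence) {n b : ℕ} (hn : 2 * b < n)
    (hb : ∀ R : Interp S ar (Fin n), IsMod χ R → ∃ C : Finset (Fin n), C.card ≤ b ∧ SupI R C) :
    count χ n = ∑ j ∈ Finset.range (b + 1), cntA χ j n * n.choose j := by
  classical
  haveI := finInterp (S := S) (ar := ar) n
  haveI := Fintype.ofFinite {R : Interp S ar (Fin n) // IsMod χ R}
  have hLS : ∀ R : {R : Interp S ar (Fin n) // IsMod χ R}, ∃ C : Finset (Fin n), C.card ≤ b ∧ LS R.1 C :=
    fun R => LS.exists (hb R.1 R.2)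
  choose f hf using hLS
  have h1 : count χ n = ∑ C ∈ (Finset.univ : Finset (Fin n)).powerset,
      (Finset.univ.filter fun R : {R : Interp S ar (Fin n) // IsMod χ R} => f R = C).card := by
    show Nat.card _ = _
    rw [Nat.card_eq_fintype_card, ← Finset.card_univ]
    exact Finset.card_eq_sum_card_fiberwise fun R _ => Finset.mem_powerset.2 (Finset.subset_univ _)
  have h2 : ∀ C ∈ (Finset.univ : Finset (Fin n)).powerset,
      (Finset.univ.filter fun R : {R : Interp S ar (Fin n) // IsMod χ R} => f R = C).card =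
        (fun j => if j ≤ b then cntA χ j n else 0) C.card := by
    intro C _
    show _ = if C.card ≤ b then cntA χ C.card n else 0
    split_ifs with hC
    · rw [← card_LS χ C, ← Fintype.card_subtype, ← Nat.card_eq_fintype_card]
      refine Nat.card_congr
        { toFun := fun R => ⟨R.1.1, R.1.2, by
            have h3 := (hf R.1).2
            rw [R.2] at h3
            exact h3⟩
          invFun := fun R => ⟨⟨R.1, R.2.1⟩, LS.unique hn (hf ⟨R.1, R.2.1⟩).2 R.2.2 (hf ⟨R.1, R.2.1⟩).1 hC⟩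
          left_inv := fun R => rfl
          right_inv := fun R => rfl }
    · rw [Finset.card_eq_zero, Finset.filter_eq_empty_iff]
      intro R _ h3
      exact hC (h3 ▸ (hf R).1)
  have h5 := Finset.sum_powerset_apply_card (fun j => if j ≤ b then cntA χ j n else 0)
    (x := (Finset.univ : Finset (Fin n)))
  rw [Finset.card_univ, Fintype.card_fin] at h5
  rw [h1, Finset.sum_congr rfl h2]
  refine h5.trans ?_
  have h4 : Finset.range (b + 1) ⊆ Finset.range (n + 1) := Finset.range_subset_range.2 (by omega)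
  rw [← Finset.sum_subset h4]
  · refine Finset.sum_congr rfl fun j hj => ?_
    rw [Finset.mem_range] at hj
    rw [if_pos (by omega), smul_eq_mul, mul_comm]
  · intro j _ hj
    rw [Finset.mem_range] at hj
    rw [if_neg (by omega), smul_zero]

theorem stmtEvPoly : StmtEvPoly := by
  intro S _ ar χ hB
  obtain ⟨b, hb⟩ := hB
  obtain ⟨K, hK⟩ : ∃ K, ∀ s, ar s ≤ K := by
    obtain ⟨K, hK⟩ := (Set.finite_range ar).bddAbove
    exact ⟨K, fun s => hK ⟨s, rfl⟩⟩
  have h1 : ∀ j : ℕ, ∃ n0 a, ∀ n, n0 ≤ n → cntA χ j n = a := fun j =>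
    ev_const (n1 := j + K + qd χ + 1) fun n hn => cntA_anti χ hK hn
  choose n0 a ha using h1
  refine ⟨b, 2 * b + 1 + ∑ j ∈ Finset.range (b + 1), n0 j, a, fun n hn => ?_⟩
  rw [count_eq χ (b := b) (by omega) (hb n)]
  refine Finset.sum_congr rfl fun j hj => ?_
  rw [ha j n]
  have := Finset.single_le_sum (f := n0) (fun _ _ => Nat.zero_le _) hj
  omega

end Pool.Agent.Helper83.QG
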