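import Pool.Agent.Helper58.QD.Stub

/-!
C3: the two cases exclude each other
-/

set_option autoImplicit false

namespace Pool.Agent.Helper83.QG

open Pool.Agent.Helper58.QD

theorem exists_pow_lt (k : ℕ) : ∃ M, ∀ m, M ≤ m → m ^ k < 2 ^ m := by
  have h := (tendsto_pow_const_div_const_pow_of_one_lt k (one_lt_two (α := ℝ))).eventually_lt_const
    (u := 1) one_pos
  obtain ⟨M, hM⟩ := Filter.eventually_atTop.1 h
  refine ⟨M, fun m hm => ?_⟩
  have h1 := hM m hm
  rw [div_lt_one (by positivity)] at h1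
  exact_mod_cast h1

theorem stmtExcl : StmtExcl := by
  rintro f h ⟨c, hc⟩
  obtain ⟨M, hM⟩ := exists_pow_lt (6 * c)
  obtain ⟨n, m, h1, h2, h3⟩ := h (M ^ 6 + 2)
  have h4 : M ≤ m := by
    by_contra h5
    push Not at h5
    have := Nat.pow_le_pow_left h5.le 6
    omega
  have h5 : f n ≤ n ^ c := hc n (by omega)
  have h6 : n ^ c ≤ m ^ (6 * c) := by
    rw [pow_mul]
    exact Nat.pow_le_pow_left h2 c
  have := hM m h4
  omega

end Pool.Agent.Helper83.QG
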