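import Pool.Agent.Helper83.QG.Cnt
import Pool.Agent.Helper58.QD.Stub

/-!
C1: bounded supports give polynomially many models
-/

set_option autoImplicit false

namespace Pool.Agent.Helper83.QG

open FirstOrder Pool.Agent.Helper20.Spectra
open Pool.Agent.Helper58.QD

theorem stmtPoly : StmtPoly := by
  intro S _ ar χ hB
  classical
  haveI := Fintype.ofFinite S
  obtain ⟨b, hb⟩ := hB
  refine ⟨∑ s : S, (b + (b + ar s) ^ ar s), fun n hn => ?_⟩
  haveI : Nonempty (Fin n) := ⟨⟨0, by omega⟩⟩
  let F : {R : Interp S ar (Fin n) // IsMod χ R} →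
      ∀ s : S, {R : (Fin (ar s) → Fin n) → Prop // ∃ C : Finset (Fin n), C.card ≤ b ∧ Sup R C} :=
    fun R s => ⟨R.1 s, by
      obtain ⟨C, h1, h2⟩ := hb n R.1 R.2
      exact ⟨C, h1, h2 s⟩⟩
  have hF : Function.Injective F := by
    intro R R' h
    apply Subtype.ext
    funext s
    exact congrArg Subtype.val (congrFun h s)
  calc count χ n ≤ Nat.card (∀ s : S, {R : (Fin (ar s) → Fin n) → Prop //
          ∃ C : Finset (Fin n), C.card ≤ b ∧ Sup R C}) := Nat.card_le_card_of_injective F hF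
    _ = ∏ s : S, Nat.card {R : (Fin (ar s) → Fin n) → Prop //
          ∃ C : Finset (Fin n), C.card ≤ b ∧ Sup R C} := Nat.card_pi
    _ ≤ ∏ s : S, n ^ (b + (b + ar s) ^ ar s) := by
      refine Finset.prod_le_prod' fun s _ => ?_
      refine (card_supLe (M := Fin n) (ar s) b).trans ?_
      rw [Fintype.card_fin, pow_add]
      exact Nat.mul_le_mul_left _ (Nat.pow_le_pow_left hn _)
    _ = _ := Finset.prod_pow_eq_pow_sum _ _ _

end Pool.Agent.Helper83.QG
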