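import Pool.Agent.Helper58.QD.Defs

/-!
Relations with a small support: how many there are.
-/

set_option autoImplicit false

namespace Pool.Agent.Helper83.QG

open Pool.Agent.Helper58.QD (Sup)

noncomputable section

variable {M : Type} {k b : ℕ}

open Classical in
/-- the name of the point `v` -/
def patv (c : Fin b → M) (t : Fin k → M) (v : M) : Option (Fin b ⊕ Fin k) :=
  if h : ∃ j, c j = v then some (Sum.inl h.choose)
  else if h : ∃ i, t i = v then some (Sum.inr h.choose) else none

/-- the pattern of `t` over `c` -/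
def pat (c : Fin b → M) (t : Fin k → M) (i : Fin k) : Fin b ⊕ Fin k := (patv c t (t i)).getD (Sum.inr i)

lemma pat_inl {c : Fin b → M} {t : Fin k → M} {i : Fin k} {j : Fin b} (h : pat c t i = Sum.inl j) :
    c j = t i := by
  unfold pat patv at h
  by_cases h1 : ∃ j, c j = t i
  · rw [dif_pos h1] at h
    have h2 : h1.choose = j := Sum.inl.inj h
    rw [← h2]
    exact h1.choose_spec
  · rw [dif_neg h1, dif_pos ⟨i, rfl⟩] at h
    exact absurd h (by simp)

lemma pat_inr {c : Fin b → M} {t : Fin k → M} {i i' : Fin k} (h : pat c t i = Sum.inr i') :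
    t i' = t i ∧ ¬ ∃ j, c j = t i := by
  unfold pat patv at h
  by_cases h1 : ∃ j, c j = t i
  · rw [dif_pos h1] at h
    exact absurd h (by simp)
  · have h3 : ∃ i', t i' = t i := ⟨i, rfl⟩
    rw [dif_neg h1, dif_pos h3] at h
    have h2 : h3.choose = i' := Sum.inr.inj h
    rw [← h2]
    exact ⟨h3.choose_spec, h1⟩

lemma pat_eq {c : Fin b → M} {t : Fin k → M} {i j : Fin k} : pat c t i = pat c t j ↔ t i = t j := by
  constructor
  · intro h
    rcases hi : pat c t i with a | a
    · exact (pat_inl hi).symm.trans (pat_inl (h ▸ hi))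
    · exact (pat_inr hi).1.symm.trans (pat_inr (h ▸ hi)).1
  · intro h
    have h1 : patv c t (t i) ≠ none := by
      unfold patv
      split_ifs with h1 h2
      · simp
      · simp
      · exact absurd ⟨i, rfl⟩ h2
    obtain ⟨y, hy⟩ := Option.ne_none_iff_exists'.1 h1
    unfold pat
    rw [← h, hy]
    rfl

/-- tuples with the same pattern differ by a permutation -/
lemma exists_perm [Fintype M] (c : Fin b → M) (t t' : Fin k → M) (h : pat c t = pat c t') :
    ∃ σ : Equiv.Perm M, (∀ j, σ (c j) = c j) ∧ σ ∘ t = t' := by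
  classical
  let f : M → M := fun x => if ∃ j, c j = x then x else if h : ∃ i, t i = x then t' h.choose else x
  have fc : ∀ j, f (c j) = c j := fun j => if_pos ⟨j, rfl⟩
  have ft : ∀ i, f (t i) = t' i := by
    intro i
    rcases hi : pat c t i with a | a
    · have h1 := pat_inl hi
      have h2 := pat_inl (h ▸ hi)
      rw [← h1, fc, h2]
    · have h1 := pat_inr hi
      have h3 : ∃ i', t i' = t i := ⟨i, rfl⟩
      have h4 : f (t i) = t' h3.choose := by
        show (if ∃ j, c j = t i then t i else if h : ∃ i', t i' = t i then t' h.choose else t i) = _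
        rw [if_neg h1.2, dif_pos h3]
      rw [h4]
      have h5 := h3.choose_spec
      rw [← pat_eq (c := c), ← congrFun h, ← congrFun h, pat_eq]
      exact h5
  have hinj : Set.InjOn f ((Finset.univ.image c ∪ Finset.univ.image t : Finset M) : Set M) := by
    intro x hx y hy hxy
    simp only [Finset.coe_union, Finset.coe_image, Finset.coe_univ, Set.image_univ, Set.mem_union,
      Set.mem_range] at hx hy
    have key : ∀ (j : Fin b) (i : Fin k), f (c j) = f (t i) → c j = t i := by
      intro j i hji
      rw [fc, ft] at hji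
      rcases hi : pat c t i with a | a
      · have h1 := pat_inl hi
        have h2 := pat_inl (h ▸ hi)
        rw [← h1, h2, hji]
      · have h2 := pat_inr (c := c) (t := t') (h ▸ hi)
        exact absurd ⟨j, hji⟩ h2.2
    rcases hx with ⟨j, rfl⟩ | ⟨i, rfl⟩ <;> rcases hy with ⟨j', rfl⟩ | ⟨i', rfl⟩
    · rwa [fc, fc] at hxy
    · exact key j i' hxy
    · exact (key j' i hxy.symm).symm
    · rw [ft, ft, ← pat_eq (c := c), ← congrFun h, ← congrFun h, pat_eq] at hxy
      exact hxy
  obtain ⟨g, hg⟩ := Finset.exists_equiv_extend_of_card_eq (α := M) (β := M) (t := Finset.univ)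
    Finset.card_univ.symm (Finset.subset_univ _) hinj
  let σ : Equiv.Perm M := g.trans (Equiv.subtypeUnivEquiv (fun x => Finset.mem_univ x))
  have hσ : ∀ x ∈ Finset.univ.image c ∪ Finset.univ.image t, σ x = f x := fun x hx => hg x hx
  refine ⟨σ, fun j => ?_, ?_⟩
  · rw [hσ _ (Finset.mem_union_left _ (Finset.mem_image_of_mem c (Finset.mem_univ j))), fc]
  · funext i
    show σ (t i) = t' i
    rw [hσ _ (Finset.mem_union_right _ (Finset.mem_image_of_mem t (Finset.mem_univ i))), ft]

lemma exists_enum [Nonempty M] (C : Finset M) (hC : C.card ≤ b) : ∃ c : Fin b → M, ∀ x ∈ C, ∃ j, c j = x := by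
  classical
  have e := C.equivFin
  refine ⟨fun j => if h : (j : ℕ) < C.card then (e.symm ⟨j, h⟩ : M) else Classical.arbitrary M, fun x hx => ?_⟩
  have hlt : ((e ⟨x, hx⟩ : Fin C.card) : ℕ) < b := lt_of_lt_of_le (e ⟨x, hx⟩).2 hC
  refine ⟨⟨(e ⟨x, hx⟩ : Fin C.card), hlt⟩, ?_⟩
  have : ((e ⟨x, hx⟩ : Fin C.card) : ℕ) < C.card := (e ⟨x, hx⟩).2
  simp only [this, dif_pos]
  simp

/-- a relation with a support in the range of `c` is a function of the pattern -/
lemma of_pat [Fintype M] {R : (Fin k → M) → Prop} {C : Finset M} (hR : Sup R C) (c : Fin b → M)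
    (hc : ∀ x ∈ C, ∃ j, c j = x) (t : Fin k → M) : R t ↔ ∃ t', pat c t' = pat c t ∧ R t' := by
  constructor
  · intro h
    exact ⟨t, rfl, h⟩
  · rintro ⟨t', h, h'⟩
    obtain ⟨σ, h1, h2⟩ := exists_perm c t' t h
    rw [← h2]
    refine (hR σ (fun x hx => ?_) t').2 h'
    obtain ⟨j, rfl⟩ := hc x hx
    exact h1 j

/-- the number of relations with a support of at most `b` elements -/
theorem card_supLe [Fintype M] [Nonempty M] (k b : ℕ) :
    Nat.card {R : (Fin k → M) → Prop // ∃ C : Finset M, C.card ≤ b ∧ Sup R C} ≤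
      Fintype.card M ^ b * 2 ^ (b + k) ^ k := by
  classical
  let F : {R : (Fin k → M) → Prop // ∃ C : Finset M, C.card ≤ b ∧ Sup R C} →
      (Fin b → M) × ((Fin k → Fin b ⊕ Fin k) → Bool) := fun R =>
    (((exists_enum R.2.choose R.2.choose_spec.1).choose), fun p =>
      decide (∃ t', pat (exists_enum R.2.choose R.2.choose_spec.1).choose t' = p ∧ R.1 t'))
  have hF : Function.Injective F := by
    intro R R' h
    have h1 : (F R).1 = (F R').1 := congrArg Prod.fst h
    have h2 : (F R).2 = (F R').2 := congrArg Prod.snd h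
    apply Subtype.ext
    funext t
    have e1 := of_pat R.2.choose_spec.2 _ (exists_enum R.2.choose R.2.choose_spec.1).choose_spec t
    have e2 := of_pat R'.2.choose_spec.2 _ (exists_enum R'.2.choose R'.2.choose_spec.1).choose_spec t
    have h3 := congrFun h2 (pat (F R).1 t)
    have h4 : (∃ t', pat (F R).1 t' = pat (F R).1 t ∧ R.1 t') ↔
        (∃ t', pat (F R').1 t' = pat (F R).1 t ∧ R'.1 t') := decide_eq_decide.1 h3
    rw [h1] at h4
    apply propext
    rw [e1, e2]
    have h5 : (F R).1 = (exists_enum R.2.choose R.2.choose_spec.1).choose := rfl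
    have h6 : (F R').1 = (exists_enum R'.2.choose R'.2.choose_spec.1).choose := rfl
    rw [← h5, ← h6, h1]
    exact h4
  calc Nat.card {R : (Fin k → M) → Prop // ∃ C : Finset M, C.card ≤ b ∧ Sup R C}
      ≤ Nat.card ((Fin b → M) × ((Fin k → Fin b ⊕ Fin k) → Bool)) := Nat.card_le_card_of_injective F hF
    _ = _ := by
      rw [Nat.card_eq_fintype_card, Fintype.card_prod, Fintype.card_fun, Fintype.card_fun, Fintype.card_fun,
        Fintype.card_sum, Fintype.card_fin, Fintype.card_fin, Fintype.card_bool]

end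

end Pool.Agent.Helper83.QG
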